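import Mathlib
import Pool.Agent.R107.ArmMain

/-! The configuration space of the robotic arm of length 15 in the tunnel of width 8, with
left-facing links allowed, is not CAT(0). All definitions are in `Pool.Agent.R107.Arm` and
`Pool.Agent.R107.Cat0`. -/

namespace Pool.Agent.Results.MP_66e1b3_co.NotCAT0

/-- The cube complex `X_{8,15}` with its induced length metric is not CAT(0). -/
theorem result : ¬ Pool.Agent.R107.Cat0.IsCAT0 (Pool.Agent.R107.Arm.Conf 8 15) :=
  Pool.Agent.R107.Arm.main

end Pool.Agent.Results.MP_66e1b3_co.NotCAT0
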